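import Pool.Agent.W567.IV.Stm

/-! IV-GERM: a Zariski dense family of closed chains gives a generic closed chain. -/

set_option autoImplicit false

open scoped Classical

namespace Pool.W335.IV

open Pool.Agent.W567.IV Filter

variable {I : Type} (φ : Ultrafilter I)

/-- the ultrapower -/
abbrev GG : Type := Filter.Germ (φ : Filter I) ℂ

noncomputable instance algGG : Algebra ℂ (GG φ) :=
  ((Filter.Germ.coeRingHom (φ : Filter I) : (I → ℂ) →+* GG φ).comp
    (Pi.constRingHom I ℂ)).toAlgebra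

/-- the germ of a family -/
abbrev gs (f : I → ℂ) : GG φ := (f : Filter.Germ (φ : Filter I) ℂ)

lemma alg_eq (c : ℂ) : algebraMap ℂ (GG φ) c = gs φ (fun _ => c) := rfl

lemma gs_add (f g : I → ℂ) : gs φ f + gs φ g = gs φ (fun i => f i + g i) := rfl
lemma gs_sub (f g : I → ℂ) : gs φ f - gs φ g = gs φ (fun i => f i - g i) := rfl
lemma gs_mul (f g : I → ℂ) : gs φ f * gs φ g = gs φ (fun i => f i * g i) := rfl
lemma gs_div (f g : I → ℂ) : gs φ f / gs φ g = gs φ (fun i => f i / g i) := rfl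
lemma gs_pow (f : I → ℂ) (n : ℕ) : gs φ f ^ n = gs φ (fun i => f i ^ n) := rfl
lemma gs_two : (2 : GG φ) = gs φ (fun _ => 2) := rfl

lemma gs_sum {ι : Type} (s : Finset ι) (f : ι → I → ℂ) :
    ∑ k ∈ s, gs φ (f k) = gs φ (fun i => ∑ k ∈ s, f k i) := by
  have := map_sum (Filter.Germ.coeRingHom (φ : Filter I) : (I → ℂ) →+* GG φ) f s
  have e : (fun i => ∑ k ∈ s, f k i) = ∑ k ∈ s, f k := by
    funext i
    rw [Finset.sum_apply]
  rw [e]
  exact this.symm

variable {n : ℕ}

/-- germ of a family of vectors -/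
def gv (a : I → Fin n → ℂ) : Fin n → GG φ := fun k => gs φ (fun i => a i k)

/-- germ of a family of lines -/
def gl (x : I → Line n ℂ) : Line n (GG φ) := (gv φ (fun i => (x i).1), gv φ (fun i => (x i).2))

lemma dot_gv (a b : I → Fin n → ℂ) : gv φ a ⬝ᵥ gv φ b = gs φ (fun i => a i ⬝ᵥ b i) := by
  unfold dotProduct gv
  simp only [gs_mul]
  exact gs_sum φ _ _

lemma sub_gv (a b : I → Fin n → ℂ) : gv φ a - gv φ b = gv φ (fun i => a i - b i) := rfl
lemma add_gv (a b : I → Fin n → ℂ) : gv φ a + gv φ b = gv φ (fun i => a i + b i) := rfl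
lemma smul_gv (f : I → ℂ) (a : I → Fin n → ℂ) : gs φ f • gv φ a = gv φ (fun i => f i • a i) := rfl

lemma ctr_gv (S : Sph n) : S.ctr (GG φ) = gv φ (fun _ => S.ctr ℂ) := rfl
lemma rad_gs (S : Sph n) : S.rad (GG φ) = gs φ (fun _ => S.rad ℂ) := rfl

lemma DD_gl (S : Sph n) (x : I → Line n ℂ) : DD S (gl φ x) = gs φ (fun i => DD S (x i)) := by
  unfold DD gl
  simp only [ctr_gv, rad_gs, sub_gv, dot_gv, gs_mul, gs_sub, gs_pow]

lemma tau_gl (S : Sph n) (δ : I → ℂ) (x : I → Line n ℂ) :
    tau S (gs φ δ) (gl φ x) = gs φ (fun i => tau S (δ i) (x i)) := by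
  unfold tau gl
  simp only [ctr_gv, sub_gv, dot_gv, gs_sub, gs_div]

lemma YY_gl (S : Sph n) (δ : I → ℂ) (x : I → Line n ℂ) :
    YY S (gs φ δ) (gl φ x) = gv φ (fun i => YY S (δ i) (x i)) := by
  unfold YY
  rw [tau_gl]
  unfold gl
  simp only [ctr_gv, sub_gv, smul_gv, add_gv]

lemma RR_gl (S : Sph n) (δ : I → ℂ) (x : I → Line n ℂ) :
    RR S (gs φ δ) (gl φ x) = gl φ (fun i => RR S (δ i) (x i)) := by
  unfold RR
  rw [tau_gl, YY_gl]
  unfold gl
  simp only [gs_two, rad_gs, gs_mul, gs_div, smul_gv, add_gv, sub_gv]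

/-- germ of a family of chains -/
noncomputable def gc : List (Sph n) → (I → Ch n ℂ) → Ch n (GG φ)
  | [], _ => []
  | (S :: W), c => (S, gs φ (fun i => ((c i).headD (S, 0)).2)) :: gc W (fun i => (c i).tail)

lemma gc_map (W : List (Sph n)) : ∀ c : I → Ch n ℂ, (gc φ W c).map Prod.fst = W := by
  induction W with
  | nil => intro c; rfl
  | cons S W ih => intro c; simp only [gc, List.map_cons, ih]

/-- decomposition of a chain with a given word -/
lemma decomp {S : Sph n} {W : List (Sph n)} {c : Ch n ℂ} (h : c.map Prod.fst = S :: W) :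
    c = (S, (c.headD (S, 0)).2) :: c.tail ∧ c.tail.map Prod.fst = W := by
  cases c with
  | nil => simp at h
  | cons p c =>
    simp only [List.map_cons, List.cons.injEq] at h
    refine ⟨?_, h.2⟩
    simp only [List.headD_cons, List.tail_cons, List.cons.injEq, and_true]
    rw [← h.1]

lemma endl_gl (W : List (Sph n)) : ∀ (c : I → Ch n ℂ) (x : I → Line n ℂ),
    (∀ i, (c i).map Prod.fst = W) → endl (gc φ W c) (gl φ x) = gl φ (fun i => endl (c i) (x i)) := by
  induction W with
  | nil =>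
    intro c x h
    have e : ∀ i, c i = [] := fun i => List.map_eq_nil_iff.1 (h i)
    simp only [gc, endl, e]
  | cons S W ih =>
    intro c x h
    have e := fun i => decomp (h i)
    simp only [gc, endl]
    rw [ih _ x (fun i => (e i).2), RR_gl]
    congr 1
    funext i
    conv_rhs => rw [(e i).1]
    rfl

lemma compat_gl (W : List (Sph n)) : ∀ (c : I → Ch n ℂ) (S : Sph n) (δ : I → ℂ),
    (∀ i, (c i).map Prod.fst = W) → (∀ i, compat S (δ i) (c i)) →
    compat S (gs φ δ) (gc φ W c) := by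
  induction W with
  | nil => intro c S δ _ _; simp only [gc, compat]
  | cons T W ih =>
    intro c S δ h hc
    have e := fun i => decomp (h i)
    simp only [gc, compat]
    intro hO
    have hc' : ∀ i, (T.ρ = S.ρ → ((c i).headD (T, 0)).2 = δ i) ∧ compat S (δ i) (c i).tail := by
      intro i
      have := hc i
      rw [(e i).1] at this
      exact this hO
    refine ⟨fun hρ => ?_, ih _ S δ (fun i => (e i).2) (fun i => (hc' i).2)⟩
    congr 1
    funext i
    exact (hc' i).1 hρ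

lemma val_gl (W : List (Sph n)) : ∀ (c : I → Ch n ℂ) (x : I → Line n ℂ),
    (∀ i, (c i).map Prod.fst = W) → (∀ i, Val (c i) (x i)) → Val (gc φ W c) (gl φ x) := by
  induction W with
  | nil => intro c x _ _; simp only [gc, Val]
  | cons S W ih =>
    intro c x h hv
    have e := fun i => decomp (h i)
    have hv' : ∀ i, Val (c i).tail (x i) ∧
        ((c i).headD (S, 0)).2 ^ 2 = DD S (endl (c i).tail (x i)) ∧
        compat S ((c i).headD (S, 0)).2 (c i).tail := by
      intro i
      have := hv i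
      rw [(e i).1] at this
      exact this
    simp only [gc, Val]
    refine ⟨ih _ x (fun i => (e i).2) (fun i => (hv' i).1), ?_,
      compat_gl φ W _ S _ (fun i => (e i).2) (fun i => (hv' i).2.2)⟩
    rw [endl_gl φ W _ x (fun i => (e i).2), DD_gl, gs_pow]
    congr 1
    funext i
    exact (hv' i).2.1

lemma aeval_gl (x : I → Line n ℂ) (P : MvPolynomial (Fin n ⊕ Fin n) ℂ) :
    MvPolynomial.aeval (Sum.elim (gl φ x).1 (gl φ x).2 : Fin n ⊕ Fin n → GG φ) P =
      gs φ (fun i => MvPolynomial.eval (Sum.elim (x i).1 (x i).2) P) := by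
  induction P using MvPolynomial.induction_on with
  | C a =>
    rw [MvPolynomial.aeval_C, alg_eq]
    simp only [MvPolynomial.eval_C]
  | add p q hp hq =>
    rw [map_add, hp, hq, gs_add]
    simp only [map_add]
  | mul_X p k hp =>
    rw [map_mul, hp, MvPolynomial.aeval_X]
    simp only [map_mul, MvPolynomial.eval_X]
    rw [← gs_mul]
    congr 1
    cases k <;> rfl

theorem germ : S_germ := by
  intro n W I l c hW hV hE hP
  -- the ultrafilter
  have hS : ∃ φ : Ultrafilter I, ∀ P : MvPolynomial (Fin n ⊕ Fin n) ℂ, P ≠ 0 →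
      {i | MvPolynomial.eval (Sum.elim (l i).1 (l i).2) P ≠ 0} ∈ φ := by
    have key : ∀ T : Finset (Set I), (↑T : Set (Set I)) ⊆
        {s | ∃ P : MvPolynomial (Fin n ⊕ Fin n) ℂ, P ≠ 0 ∧
          s = {i | MvPolynomial.eval (Sum.elim (l i).1 (l i).2) P ≠ 0}} →
        ∃ Q : MvPolynomial (Fin n ⊕ Fin n) ℂ, Q ≠ 0 ∧
          {i | MvPolynomial.eval (Sum.elim (l i).1 (l i).2) Q ≠ 0} ⊆ ⋂₀ (↑T : Set (Set I)) := by
      intro T
      induction T using Finset.induction_on with
      | empty => intro _; exact ⟨1, one_ne_zero, by simp⟩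
      | insert a T _ ih =>
        intro h
        rw [Finset.coe_insert] at h
        obtain ⟨Q, hQ, hQ'⟩ := ih ((Set.subset_insert _ _).trans h)
        obtain ⟨P, hP0, rfl⟩ := h (Set.mem_insert _ _)
        refine ⟨P * Q, mul_ne_zero hP0 hQ, ?_⟩
        rw [Finset.coe_insert, Set.sInter_insert]
        intro i hi
        simp only [Set.mem_ofPred_eq, map_mul, ne_eq, mul_eq_zero, not_or] at hi
        exact ⟨hi.1, hQ' hi.2⟩
    obtain ⟨φ, hφ⟩ := Ultrafilter.exists_ultrafilter_of_finite_inter_nonempty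
      {s | ∃ P : MvPolynomial (Fin n ⊕ Fin n) ℂ, P ≠ 0 ∧
          s = {i | MvPolynomial.eval (Sum.elim (l i).1 (l i).2) P ≠ 0}} (by
        intro T hT
        obtain ⟨Q, hQ, hQ'⟩ := key T hT
        obtain ⟨i, hi⟩ := hP Q hQ
        exact ⟨i, hQ' hi⟩)
    exact ⟨φ, fun P h0 => hφ ⟨P, h0, rfl⟩⟩
  obtain ⟨φ, hφ⟩ := hS
  refine ⟨GG φ, inferInstance, algGG φ, gl φ l, gc φ W c, ?_, gc_map φ W c,
    val_gl φ W c l hW hV, ?_⟩
  · unfold Gen
    rw [AlgebraicIndependent, injective_iff_map_eq_zero]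
    intro P h0
    by_contra hne
    rw [aeval_gl] at h0
    have h1 : (fun i => MvPolynomial.eval (Sum.elim (l i).1 (l i).2) P) =ᶠ[(φ : Filter I)]
        (fun _ => (0 : ℂ)) := Filter.Germ.coe_eq.1 h0
    have h2 := hφ P hne
    have h3 : ∃ i, (fun i => MvPolynomial.eval (Sum.elim (l i).1 (l i).2) P) i = 0 ∧
        i ∈ {i | MvPolynomial.eval (Sum.elim (l i).1 (l i).2) P ≠ 0} :=
      (h1.and h2).exists
    obtain ⟨i, hi, hi'⟩ := h3
    exact hi' hi
  · rw [endl_gl φ W c l hW]
    unfold gl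
    simp only [hE]

end Pool.W335.IV
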