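import Pool.Agent.W567.IV.Stm2
import Pool.Agent.W335.IV.Germ

/-! IV-GERM2: a Zariski dense family of chains closed up to a linear map gives a generic one. -/

set_option autoImplicit false

open scoped Classical

namespace Pool.W335.IV

open Pool.Agent.W567.IV Filter

variable {I : Type} (φ : Ultrafilter I) {n : ℕ}

lemma mulVec_gv (A : Matrix (Fin n) (Fin n) ℝ) (a : I → Fin n → ℂ) :
    (castM (GG φ) A).mulVec (gv φ a) = gv φ (fun i => (castM ℂ A).mulVec (a i)) := by
  funext k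
  unfold Matrix.mulVec dotProduct gv castM
  simp only [Matrix.map_apply, alg_eq, gs_mul]
  exact gs_sum φ _ _

theorem germ2 : S_germ2 := by
  intro n A W I l c hW hV hE hP
  -- the ultrafilter
  have hS : ∃ φ : Ultrafilter I, ∀ P : MvPolynomial (Fin n ⊕ Fin n) ℂ, P ≠ 0 →
      {i | MvPolynomial.eval (Sum.elim (l i).1 (l i).2) P ≠ 0} ∈ φ := by
    have key : ∀ T : Finset (Set I), (↑T : Set (Set I)) ⊆
        {s | ∃ P : MvPolynomial (Fin n ⊕ Fin n) ℂ, P ≠ 0 ∧
          s = {i | MvPolynomial.eval (Sum.elim (l i).1 (l i).2) P ≠ 0}} →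
        ∃ Q : MvPolynomial (Fin n ⊕ Fin n) ℂ, Q ≠ 0 ∧
          {i | MvPolynomial.eval (Sum.elim (l i).1 (l i).2) Q ≠ 0} ⊆ ⋂₀ (↑T : Set (Set I)) := by
      intro T
      induction T using Finset.induction_on with
      | empty => intro _; exact ⟨1, one_ne_zero, by simp⟩
      | insert a T _ ih =>
        intro h
        rw [Finset.coe_insert] at h
        obtain ⟨Q, hQ, hQ'⟩ := ih ((Set.subset_insert _ _).trans h)
        obtain ⟨P, hP0, rfl⟩ := h (Set.mem_insert _ _)
        refine ⟨P * Q, mul_ne_zero hP0 hQ, ?_⟩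
        rw [Finset.coe_insert, Set.sInter_insert]
        intro i hi
        simp only [Set.mem_ofPred_eq, map_mul, ne_eq, mul_eq_zero, not_or] at hi
        exact ⟨hi.1, hQ' hi.2⟩
    obtain ⟨φ, hφ⟩ := Ultrafilter.exists_ultrafilter_of_finite_inter_nonempty
      {s | ∃ P : MvPolynomial (Fin n ⊕ Fin n) ℂ, P ≠ 0 ∧
          s = {i | MvPolynomial.eval (Sum.elim (l i).1 (l i).2) P ≠ 0}} (by
        intro T hT
        obtain ⟨Q, hQ, hQ'⟩ := key T hT
        obtain ⟨i, hi⟩ := hP Q hQ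
        exact ⟨i, hQ' hi⟩)
    exact ⟨φ, fun P h0 => hφ ⟨P, h0, rfl⟩⟩
  obtain ⟨φ, hφ⟩ := hS
  refine ⟨GG φ, inferInstance, algGG φ, gl φ l, gc φ W c, ?_, gc_map φ W c,
    val_gl φ W c l hW hV, ?_⟩
  · unfold Gen
    rw [AlgebraicIndependent, injective_iff_map_eq_zero]
    intro P h0
    by_contra hne
    rw [aeval_gl] at h0
    have h1 : (fun i => MvPolynomial.eval (Sum.elim (l i).1 (l i).2) P) =ᶠ[(φ : Filter I)]
        (fun _ => (0 : ℂ)) := Filter.Germ.coe_eq.1 h0
    have h2 := hφ P hne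
    have h3 : ∃ i, (fun i => MvPolynomial.eval (Sum.elim (l i).1 (l i).2) P) i = 0 ∧
        i ∈ {i | MvPolynomial.eval (Sum.elim (l i).1 (l i).2) P ≠ 0} :=
      (h1.and h2).exists
    obtain ⟨i, hi, hi'⟩ := h3
    exact hi' hi
  · rw [endl_gl φ W c l hW]
    unfold gl
    simp only [hE]
    exact (mulVec_gv φ A _).symm

end Pool.W335.IV
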